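import Pool.Agent.H447.LEO2

/-!
# List edge colouring of the graphs over a long odd cycle

The graphs with a homomorphism to a long odd cycle, with few neighbours of every vertex in the fibres.
-/

set_option autoImplicit false

namespace Pool.Agent.Results.MP_2f9829_co.LongOddCycles

/-- The edges of `G` can be properly coloured from every list assignment with lists of at least `k`
colours. -/
def EdgeChoosable {V : Type} (G : SimpleGraph V) (k : ℕ) : Prop :=
  ∀ L : G.edgeSet → Finset ℕ, (∀ e, k ≤ (L e).card) →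
    ∃ c : G.edgeSet → ℕ, (∀ e, c e ∈ L e) ∧ ∀ e e', G.lineGraph.Adj e e' → c e ≠ c e'

/-- The list edge-colouring conjecture for the single graph `G`, in the form of the frozen statement
`S07911`. -/
def ListEdgeConjectureFor {V : Type} (G : SimpleGraph V) : Prop :=
  ∀ k : ℕ, G.lineGraph.Colorable k ↔ EdgeChoosable G k

/-- `f` is a homomorphism from `G` to the cycle on the residues modulo `n`, and between the fibres over
`i` and `i + 1` every vertex of these two fibres has at most `d i` neighbours. -/
def OverCycle {V : Type} (G : SimpleGraph V) {n : ℕ} (f : V → ZMod n) (d : ZMod n → ℕ) : Prop :=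
  (∀ u v, G.Adj u v → f v = f u + 1 ∨ f u = f v + 1) ∧
    ∀ u, {v | G.Adj u v ∧ f v = f u + 1}.ncard ≤ d (f u) ∧
      {v | G.Adj u v ∧ f u = f v + 1}.ncard ≤ d (f u - 1)

/-- The direct product (tensor product) of the cycle on the residues modulo `n` and `H`. -/
def cycleTimes {U : Type} (n : ℕ) (H : SimpleGraph U) : SimpleGraph (ZMod n × U) where
  Adj p q := (q.1 = p.1 + 1 ∨ p.1 = q.1 + 1) ∧ H.Adj p.2 q.2
  symm.symm := fun _ _ h => ⟨h.1.symm, h.2.symm⟩
  loopless.irrefl := fun _ h => h.2.ne rfl

theorem over_cycleTimes {U : Type} [Finite U] {n : ℕ} (H : SimpleGraph U) {m : ℕ}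
    (hm : ∀ x, (H.neighborSet x).ncard ≤ m) :
    OverCycle (cycleTimes n H) (Prod.fst : ZMod n × U → ZMod n) (fun _ => m) := by
  refine ⟨fun u v h => h.1, fun u => ⟨?_, ?_⟩⟩
  · refine le_trans (Set.ncard_le_ncard_of_injOn Prod.snd ?_ ?_ (Set.toFinite _)) (hm u.2)
    · intro v hv
      exact hv.1.2
    · intro v hv w hw h
      exact Prod.ext (hv.2.trans hw.2.symm) h
  · refine le_trans (Set.ncard_le_ncard_of_injOn Prod.snd ?_ ?_ (Set.toFinite _)) (hm u.2)
    · intro v hv
      exact hv.1.2
    · intro v hv w hw h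
      exact Prod.ext (add_right_cancel (hv.2.symm.trans hw.2)) h

theorem degree_cycleTimes {U : Type} [Finite U] {r : ℕ} (hr : 0 < r) (H : SimpleGraph U) {m : ℕ}
    (hm : ∀ x, (H.neighborSet x).ncard = m) (p : ZMod (2 * r + 1) × U) :
    ((cycleTimes (2 * r + 1) H).neighborSet p).ncard = 2 * m := by
  have h1 : (cycleTimes (2 * r + 1) H).neighborSet p =
      ({p.1 + 1, p.1 - 1} : Set (ZMod (2 * r + 1))) ×ˢ H.neighborSet p.2 := by
    ext q
    constructor
    · rintro ⟨h | h, h2⟩
      · exact ⟨Or.inl h, h2⟩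
      · exact ⟨Or.inr (by rw [Set.mem_singleton_iff, h]; ring), h2⟩
    · rintro ⟨h | h, h2⟩
      · exact ⟨Or.inl h, h2⟩
      · rw [Set.mem_singleton_iff] at h
        exact ⟨Or.inr (by rw [h]; ring), h2⟩
  have h2 : p.1 + 1 ≠ p.1 - 1 := by
    intro h
    have h3 : ((2 : ℕ) : ZMod (2 * r + 1)) = 0 := by
      push_cast
      linear_combination h
    rw [ZMod.natCast_eq_zero_iff] at h3
    have h4 := Nat.le_of_dvd (by norm_num) h3
    omega
  rw [h1, Set.ncard_prod, Set.ncard_pair h2, hm]

/-- **List edge colouring of the graphs over a long odd cycle.**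

(a) Let `G` be a finite graph with a homomorphism to the odd cycle `C_{2r+1}`, `r ≥ 1`, such that
between the fibres over `i` and `i + 1` all degrees are at most `d i`. Let `d (i - 1) + d i ≤ D` for all
`i` and `d i ≤ r t` for some `i`, where `t ≥ 1`. Then the edges of `G` can be properly coloured from all
lists of at least `D + t` colours. If `D + t - 1` colours do not suffice for the edges of `G`, then the
list edge-colouring conjecture holds for `G`.

(b) In particular, let every vertex of `G` have exactly `m ≥ 1` neighbours in each of the two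
neighbouring fibres, where `m ≤ r`, and let the number of vertices be odd. Then the chromatic index and
the list chromatic index of `G` are `2 m + 1`.

(c) In particular, let `H` be a finite graph of maximum degree at most `m`, `1 ≤ m ≤ r`. Then the list
chromatic index of the direct product `C_{2r+1} × H` is at most `2 m + 1`; if `H` is `m`-regular of odd
order, the chromatic index and the list chromatic index are `2 m + 1`. -/
theorem result :
    (∀ (V : Type) [Finite V] (G : SimpleGraph V) (r D t : ℕ) (f : V → ZMod (2 * r + 1))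
      (d : ZMod (2 * r + 1) → ℕ), 0 < r → 0 < t → OverCycle G f d → (∀ i, d (i - 1) + d i ≤ D) →
      (∃ i, d i ≤ r * t) →
      EdgeChoosable G (D + t) ∧ (¬ G.lineGraph.Colorable (D + t - 1) → ListEdgeConjectureFor G)) ∧
    (∀ (V : Type) [Finite V] (G : SimpleGraph V) (r m : ℕ) (f : V → ZMod (2 * r + 1)),
      0 < m → m ≤ r → OverCycle G f (fun _ => m) → (∀ v, (G.neighborSet v).ncard = 2 * m) →
      Odd (Nat.card V) →
      ¬ G.lineGraph.Colorable (2 * m) ∧ EdgeChoosable G (2 * m + 1) ∧ ListEdgeConjectureFor G) ∧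
    (∀ (U : Type) [Finite U] (H : SimpleGraph U) (r m : ℕ), 0 < m → m ≤ r →
      (∀ x, (H.neighborSet x).ncard ≤ m) →
      EdgeChoosable (cycleTimes (2 * r + 1) H) (2 * m + 1) ∧
      ((∀ x, (H.neighborSet x).ncard = m) → Odd (Nat.card U) →
        ¬ (cycleTimes (2 * r + 1) H).lineGraph.Colorable (2 * m) ∧
        ListEdgeConjectureFor (cycleTimes (2 * r + 1) H))) := by
  have hA : ∀ (V : Type) [Finite V] (G : SimpleGraph V) (r D t : ℕ) (f : V → ZMod (2 * r + 1))
      (d : ZMod (2 * r + 1) → ℕ), 0 < r → 0 < t → OverCycle G f d → (∀ i, d (i - 1) + d i ≤ D) →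
      (∃ i, d i ≤ r * t) →
      EdgeChoosable G (D + t) ∧
        (¬ G.lineGraph.Colorable (D + t - 1) → ListEdgeConjectureFor G) := by
    intro V _ G r D t f d hr ht hG hD hex
    have h1 : Pool.Agent.H447.LEO.Choosable G (D + t) :=
      Pool.Agent.H447.LEO.main G r t D hr ht f d hG.1 (fun u => (hG.2 u).1) (fun u => (hG.2 u).2)
        hD hex
    refine ⟨h1, fun hn k => ?_⟩
    have h2 : D + t = D + t - 1 + 1 := by omega
    rw [h2] at h1
    exact Pool.Agent.H447.LEO.lec h1 hn k
  have hB : ∀ (V : Type) [Finite V] (G : SimpleGraph V) (r m : ℕ) (f : V → ZMod (2 * r + 1)),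
      0 < m → m ≤ r → OverCycle G f (fun _ => m) → (∀ v, (G.neighborSet v).ncard = 2 * m) →
      Odd (Nat.card V) →
      ¬ G.lineGraph.Colorable (2 * m) ∧ EdgeChoosable G (2 * m + 1) ∧ ListEdgeConjectureFor G := by
    intro V _ G r m f hm hmr hG hreg hodd
    have h1 := hA V G r (2 * m) 1 f (fun _ => m) (by omega) one_pos hG (fun _ => by omega)
      ⟨0, by omega⟩
    have h2 := Pool.Agent.H447.LEO.odd_order (G := G) (D := 2 * m) (by omega) hreg hodd
    exact ⟨h2, h1.1, h1.2 h2⟩
  refine ⟨hA, hB, ?_⟩
  intro U _ H r m hm hmr hdeg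
  have hov := over_cycleTimes (n := 2 * r + 1) H hdeg
  refine ⟨(hA _ (cycleTimes (2 * r + 1) H) r (2 * m) 1 _ (fun _ => m) (by omega) one_pos hov
    (fun _ => by omega) ⟨0, by omega⟩).1, fun hreg hodd => ?_⟩
  have h1 := hB _ (cycleTimes (2 * r + 1) H) r m _ hm hmr hov
    (degree_cycleTimes (by omega) H hreg) (by
      rw [Nat.card_prod, Nat.card_zmod]
      exact Odd.mul ⟨r, rfl⟩ hodd)
  exact ⟨h1.1, h1.2.2⟩

end Pool.Agent.Results.MP_2f9829_co.LongOddCycles
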